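import Pool.Agent.H60.Flow.Cor

/-!
# The sum of the squares of a nondecreasing function over a down-set

For a nondecreasing `v` and a down-set `I`:
`∑ y ∈ I, (max (v y) 0 ^ 2 + max (- v yᶜ) 0 ^ 2) ≤ ∑ B ∈ I, ∑ B' ∈ I, hat v (B ∆ B') ^ 2`.
-/

set_option autoImplicit false
set_option linter.unusedSectionVars false

open Finset InnerProductSpace

namespace Pool.Agent.H95.KQ

open Pool.Agent.H60.Flow

variable {ι : Type*} [Fintype ι] [DecidableEq ι]

/-- The space of the Fourier coefficients. -/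
abbrev E (ι : Type*) [Fintype ι] := EuclideanSpace ℝ (Finset ι)

/-- The function with the Fourier coefficients `a`. -/
noncomputable def syn (a : E ι) (Y : Finset ι) : ℝ := ∑ S, a S * ch S Y

theorem ch_eq_prod (S Y : Finset ι) : ch S Y = ∏ i, if i ∈ S then sg Y i else 1 := by
  unfold ch; rw [Finset.prod_ite_mem]; simp

theorem ch_mul (S S' Y : Finset ι) : ch S Y * ch S' Y = ch (symmDiff S S') Y := by
  simp only [ch_eq_prod, ← Finset.prod_mul_distrib]
  refine Finset.prod_congr rfl fun i _ => ?_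
  by_cases h : i ∈ S <;> by_cases h' : i ∈ S' <;> simp [Finset.mem_symmDiff, h, h', sg_sq]

theorem av_sum {κ : Type*} (T : Finset κ) (F : κ → Finset ι → ℝ) :
    av (fun A => ∑ s ∈ T, F s A) = ∑ s ∈ T, av (F s) := by
  unfold av; rw [Finset.sum_comm, Finset.sum_div]

theorem av_mul_syn (g : Finset ι → ℝ) (a b : E ι) :
    av (fun Y => g Y * (syn a Y * syn b Y)) = ∑ S, ∑ S', a S * b S' * hat g (symmDiff S S') := by
  have h : ∀ Y, g Y * (syn a Y * syn b Y) =
      ∑ S, ∑ S', (a S * b S') * (g Y * ch (symmDiff S S') Y) := by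
    intro Y
    unfold syn
    rw [Finset.sum_mul_sum, Finset.mul_sum]
    refine Finset.sum_congr rfl fun S _ => ?_
    rw [Finset.mul_sum]
    refine Finset.sum_congr rfl fun S' _ => ?_
    rw [← ch_mul]; ring
  rw [av_congr h, av_sum]
  refine Finset.sum_congr rfl fun S _ => ?_
  rw [av_sum]
  refine Finset.sum_congr rfl fun S' _ => ?_
  rw [av_mul_left]; rfl

theorem hat_one (T : Finset ι) : hat (fun _ => (1 : ℝ)) T = if T = ∅ then 1 else 0 := by
  split_ifs with h
  · subst h; rw [hat_empty, av_const]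
  · exact hat_const 1 (Finset.nonempty_iff_ne_empty.2 h)

theorem inner_eq_av (a b : E ι) : inner ℝ a b = av (fun Y => syn a Y * syn b Y) := by
  have h := av_mul_syn (fun _ => 1) a b
  simp only [one_mul, hat_one] at h
  rw [h]
  have h2 : ∀ S S' : Finset ι, symmDiff S S' = ∅ ↔ S = S' := fun S S' => by
    rw [← Finset.bot_eq_empty, symmDiff_eq_bot]
  simp only [h2, mul_ite, mul_one, mul_zero, Finset.sum_ite_eq, Finset.mem_univ, if_true]
  simp [PiLp.inner_apply, mul_comm]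

theorem syn_add (a b : E ι) (Y : Finset ι) : syn (a + b) Y = syn a Y + syn b Y := by
  unfold syn; simp [add_mul, Finset.sum_add_distrib]

theorem syn_smul (c : ℝ) (a : E ι) (Y : Finset ι) : syn (c • a) Y = c * syn a Y := by
  unfold syn; simp [mul_assoc, Finset.mul_sum]

/-- The vectors with the coefficients on the complements of the members of `I`. -/
def Hs (I : Finset (Finset ι)) : Submodule ℝ (E ι) where
  carrier := {a | ∀ S, Sᶜ ∉ I → a S = 0}
  add_mem' := by
    intro a b ha hb S hS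
    simp [ha S hS, hb S hS]
  zero_mem' := by intro S _; simp
  smul_mem' := by
    intro c a ha S hS
    simp [ha S hS]

/-- The vectors whose function lives on `p`. -/
def Sp (p : Finset ι → Prop) : Submodule ℝ (E ι) where
  carrier := {a | ∀ Y, ¬ p Y → syn a Y = 0}
  add_mem' := by
    intro a b ha hb Y hY
    rw [syn_add, ha Y hY, hb Y hY, add_zero]
  zero_mem' := by intro Y _; simp [syn]
  smul_mem' := by
    intro c a ha Y hY
    rw [syn_smul, ha Y hY, mul_zero]

theorem mem_Hs {I : Finset (Finset ι)} {a : E ι} : a ∈ Hs I ↔ ∀ S, Sᶜ ∉ I → a S = 0 := Iff.rfl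

theorem mem_Sp {p : Finset ι → Prop} {a : E ι} : a ∈ Sp p ↔ ∀ Y, ¬ p Y → syn a Y = 0 := Iff.rfl

theorem li (w : Finset ι → E ι) (h1 : ∀ y, w y yᶜ = 1) (h0 : ∀ y z, ¬ z ⊆ y → w y zᶜ = 0) :
    LinearIndependent ℝ w := by
  rw [Fintype.linearIndependent_iff]
  intro g hg
  by_contra hne
  push Not at hne
  obtain ⟨i, hi⟩ := hne
  obtain ⟨z, hz, hmax⟩ := Finset.exists_max_image (univ.filter fun y => g y ≠ 0) Finset.card
    ⟨i, by simp [hi]⟩
  have hz' : g z ≠ 0 := (Finset.mem_filter.1 hz).2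
  have h2 : ∑ y, g y * w y zᶜ = 0 := by
    have := congrArg (fun a : E ι => a zᶜ) hg
    simpa using this
  rw [Finset.sum_eq_single z] at h2
  · rw [h1, mul_one] at h2; exact hz' h2
  · intro y _ hyz
    by_cases hzy : z ⊆ y
    · have : g y = 0 := by
        by_contra hgy
        have h3 := hmax y (by simp [hgy])
        exact hyz (Finset.eq_of_subset_of_card_le hzy h3).symm
      rw [this, zero_mul]
    · rw [h0 y z hzy, mul_zero]
  · intro h; exact absurd (Finset.mem_univ _) h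

theorem fam (w : Finset ι → E ι) (h1 : ∀ y, w y yᶜ = 1) (h0 : ∀ y z, ¬ z ⊆ y → w y zᶜ = 0)
    (P : Finset (Finset ι)) (c : Finset ι → ℝ) (Q : ℝ → Submodule ℝ (E ι)) (hQ : Antitone Q)
    (hw : ∀ y ∈ P, w y ∈ Q (c y)) :
    ∃ e : P → E ι, Orthonormal ℝ e ∧ ∀ y : P, e y ∈ Q (c y) := by
  have hli := li w h1 h0
  let eq : Fin P.card ≃ P := P.equivFin.symm
  let g : Fin P.card → ℝ := fun i => - c (eq i)
  let σ := Tuple.sort g
  have hσ : Monotone (g ∘ σ) := Tuple.monotone_sort g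
  let τ : Fin P.card ≃ P := σ.trans eq
  let u : Fin P.card → E ι := fun i => w (τ i)
  have hu : LinearIndependent ℝ u :=
    hli.comp (fun i => (τ i : Finset ι)) (Subtype.val_injective.comp τ.injective)
  have hon := gramSchmidtNormed_orthonormal hu
  refine ⟨fun y => gramSchmidtNormed ℝ u (τ.symm y), hon.comp _ τ.symm.injective, fun y => ?_⟩
  have key : ∀ j, gramSchmidtNormed ℝ u j ∈ Q (c (τ j)) := by
    intro j
    unfold gramSchmidtNormed
    refine Submodule.smul_mem _ _ ?_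
    refine (Submodule.span_le.2 ?_) (gramSchmidt_mem_span ℝ u (le_refl j))
    rintro _ ⟨i, hi, rfl⟩
    have h3 : c (τ j) ≤ c (τ i) := by
      have h4 : g (σ i) ≤ g (σ j) := hσ hi
      exact neg_le_neg_iff.1 h4
    exact hQ h3 (hw _ (τ i).2)
  have h5 := key (τ.symm y)
  simpa using h5

/-- The coefficients of the vectors. -/
def wv (s : ℝ) (y S : Finset ι) : ℝ :=
  (∏ i ∈ S, if i ∈ y then s else 1) * ∏ i ∈ Sᶜ, if i ∈ y then 1 else 0

theorem wv_zero (s : ℝ) {y S : Finset ι} (h : ¬ Sᶜ ⊆ y) : wv s y S = 0 := by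
  rw [Finset.not_subset] at h
  obtain ⟨i, hi, hy⟩ := h
  unfold wv
  rw [Finset.prod_eq_zero hi (by simp [hy]), mul_zero]

theorem wv_one (s : ℝ) (y : Finset ι) : wv s y yᶜ = 1 := by
  unfold wv
  rw [Finset.prod_eq_one, Finset.prod_eq_one, mul_one]
  · intro i hi
    rw [compl_compl] at hi
    simp [hi]
  · intro i hi
    rw [Finset.mem_compl] at hi
    simp [hi]

/-- The vectors. -/
noncomputable def wE (s : ℝ) (y : Finset ι) : E ι := WithLp.toLp 2 (wv s y)

theorem wE_apply (s : ℝ) (y S : Finset ι) : wE s y S = wv s y S := rfl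

theorem syn_wE (s : ℝ) (y Y : Finset ι) :
    syn (wE s y) Y = ∏ i, ((if i ∈ y then s else 1) * sg Y i + (if i ∈ y then 1 else 0)) := by
  rw [Finset.prod_add]
  unfold syn
  rw [Finset.powerset_univ]
  refine Finset.sum_congr rfl fun S _ => ?_
  rw [wE_apply]
  unfold wv ch
  rw [Finset.prod_mul_distrib, ← Finset.compl_eq_univ_sdiff]
  ring

theorem syn_wE_one {y Y : Finset ι} (h : ¬ y ⊆ Y) : syn (wE 1 y) Y = 0 := by
  rw [Finset.not_subset] at h
  obtain ⟨i, hi, hY⟩ := h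
  rw [syn_wE]
  refine Finset.prod_eq_zero (Finset.mem_univ i) ?_
  simp [hi, sg, hY]

theorem syn_wE_neg {y Y : Finset ι} (h : ¬ Y ⊆ yᶜ) : syn (wE (-1) y) Y = 0 := by
  rw [Finset.not_subset] at h
  obtain ⟨i, hi, hY⟩ := h
  rw [Finset.mem_compl, not_not] at hY
  rw [syn_wE]
  refine Finset.prod_eq_zero (Finset.mem_univ i) ?_
  simp [hi, sg, hY]

theorem wE_mem_Hs {I : Finset (Finset ι)} (hI : ∀ A B, A ⊆ B → B ∈ I → A ∈ I) (s : ℝ) {y : Finset ι}
    (hy : y ∈ I) : wE s y ∈ Hs I := by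
  intro S hS
  rw [wE_apply]
  exact wv_zero s fun h => hS (hI _ _ h hy)

/-! ## Bessel's inequality for tensors -/

/-- `a ⊗ a`. -/
noncomputable def ten (a : E ι) : EuclideanSpace ℝ (Finset ι × Finset ι) :=
  WithLp.toLp 2 (fun p => a p.1 * a p.2)

theorem inner_ten (a b : E ι) : inner ℝ (ten a) (ten b) = (inner ℝ a b) ^ 2 := by
  have h1 : inner ℝ a b = ∑ S, a S * b S := by simp [PiLp.inner_apply, mul_comm]
  have h2 : inner ℝ (ten a) (ten b) = ∑ p : Finset ι × Finset ι, (a p.1 * a p.2) * (b p.1 * b p.2) := by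
    simp [PiLp.inner_apply, ten, mul_comm]
  rw [h1, h2, Fintype.sum_prod_type, sq, Finset.sum_mul_sum]
  exact Finset.sum_congr rfl fun S _ => Finset.sum_congr rfl fun S' _ => by ring

/-- The matrix of the multiplication by `v`, cut to the complements of the members of `I`. -/
noncomputable def Mt (v : Finset ι → ℝ) (I : Finset (Finset ι)) : EuclideanSpace ℝ (Finset ι × Finset ι) :=
  WithLp.toLp 2 (fun p => if p.1ᶜ ∈ I ∧ p.2ᶜ ∈ I then hat v (symmDiff p.1 p.2) else 0)

theorem inner_ten_Mt (v : Finset ι → ℝ) {I : Finset (Finset ι)} {a : E ι} (ha : a ∈ Hs I) :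
    inner ℝ (ten a) (Mt v I) = av (fun Y => v Y * (syn a Y * syn a Y)) := by
  rw [av_mul_syn]
  have h2 : inner ℝ (ten a) (Mt v I) = ∑ p : Finset ι × Finset ι, (a p.1 * a p.2) *
      (if p.1ᶜ ∈ I ∧ p.2ᶜ ∈ I then hat v (symmDiff p.1 p.2) else 0) := by
    simp [PiLp.inner_apply, ten, Mt, mul_comm]
  rw [h2, Fintype.sum_prod_type]
  refine Finset.sum_congr rfl fun S _ => Finset.sum_congr rfl fun S' _ => ?_
  by_cases h3 : Sᶜ ∈ I
  · by_cases h4 : S'ᶜ ∈ I
    · simp [h3, h4]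
    · simp [h4, ha S' h4]
  · simp [h3, ha S h3]

theorem norm_Mt (v : Finset ι → ℝ) (I : Finset (Finset ι)) :
    ‖Mt v I‖ ^ 2 = ∑ B ∈ I, ∑ B' ∈ I, hat v (symmDiff B B') ^ 2 := by
  rw [EuclideanSpace.norm_sq_eq]
  have h1 : ∀ p : Finset ι × Finset ι, ‖Mt v I p‖ ^ 2 =
      if p.1ᶜ ∈ I then (if p.2ᶜ ∈ I then hat v (symmDiff p.1 p.2) ^ 2 else 0) else 0 := by
    intro p
    have h2 : Mt v I p = if p.1ᶜ ∈ I ∧ p.2ᶜ ∈ I then hat v (symmDiff p.1 p.2) else 0 := rfl
    rw [h2, Real.norm_eq_abs, sq_abs]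
    by_cases h3 : p.1ᶜ ∈ I <;> by_cases h4 : p.2ᶜ ∈ I <;> simp [h3, h4]
  simp only [h1]
  rw [Fintype.sum_prod_type]
  let c : Finset ι ≃ Finset ι := ⟨fun A => Aᶜ, fun A => Aᶜ, fun A => compl_compl A, fun A => compl_compl A⟩
  rw [← Equiv.sum_comp c]
  have h5 : ∀ B : Finset ι, (∑ S' : Finset ι, if (c B)ᶜ ∈ I then
      (if S'ᶜ ∈ I then hat v (symmDiff (c B) S') ^ 2 else 0) else 0) =
      if B ∈ I then ∑ B' ∈ I, hat v (symmDiff B B') ^ 2 else 0 := by
    intro B
    rw [← Equiv.sum_comp c]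
    have h6 : ∀ B' : Finset ι, (if (c B)ᶜ ∈ I then
      (if (c B')ᶜ ∈ I then hat v (symmDiff (c B) (c B')) ^ 2 else 0) else 0) =
      if B ∈ I then (if B' ∈ I then hat v (symmDiff B B') ^ 2 else 0) else 0 := by
      intro B'
      have h7 : symmDiff (c B) (c B') = symmDiff B B' := compl_symmDiff_compl B B'
      have h8 : (c B)ᶜ = B := compl_compl B
      have h9 : (c B')ᶜ = B' := compl_compl B'
      rw [h7, h8, h9]
    simp only [h6]
    split_ifs
    · rw [← Finset.sum_filter]; simp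
    · simp
  simp only [h5]
  rw [← Finset.sum_filter]; simp

theorem quad_ge {v : Finset ι → ℝ} {t : ℝ} {a : E ι} (ha : a ∈ Sp (fun Y => t ≤ v Y))
    (hn : inner ℝ a a = (1 : ℝ)) : t ≤ av (fun Y => v Y * (syn a Y * syn a Y)) := by
  have h1 : t = av (fun Y => t * (syn a Y * syn a Y)) := by
    rw [av_mul_left, ← inner_eq_av, hn, mul_one]
  rw [h1]
  refine av_mono fun Y => ?_
  by_cases hY : t ≤ v Y
  · exact mul_le_mul_of_nonneg_right hY (mul_self_nonneg _)
  · rw [ha Y hY]; simp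

theorem quad_le {v : Finset ι → ℝ} {t : ℝ} {a : E ι} (ha : a ∈ Sp (fun Y => v Y ≤ - t))
    (hn : inner ℝ a a = (1 : ℝ)) : av (fun Y => v Y * (syn a Y * syn a Y)) ≤ - t := by
  have h1 : - t = av (fun Y => (- t) * (syn a Y * syn a Y)) := by
    rw [av_mul_left, ← inner_eq_av, hn, mul_one]
  rw [h1]
  refine av_mono fun Y => ?_
  by_cases hY : v Y ≤ - t
  · exact mul_le_mul_of_nonneg_right hY (mul_self_nonneg _)
  · rw [ha Y hY]; simp

/-- **The main inequality.** -/
theorem core (v : Finset ι → ℝ) (hv : Monotone v) (I : Finset (Finset ι))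
    (hI : ∀ A B, A ⊆ B → B ∈ I → A ∈ I) :
    ∑ y ∈ I, ((max (v y) 0) ^ 2 + (max (- v yᶜ) 0) ^ 2) ≤ ∑ B ∈ I, ∑ B' ∈ I, hat v (symmDiff B B') ^ 2 := by
  obtain ⟨P, hP⟩ : ∃ P : Finset (Finset ι), P = I.filter fun y => 0 < v y := ⟨_, rfl⟩
  obtain ⟨P', hP'⟩ : ∃ P' : Finset (Finset ι), P' = I.filter fun y => v yᶜ < 0 := ⟨_, rfl⟩
  have hPm : ∀ y ∈ P, y ∈ I ∧ 0 < v y := fun y hy => by
    rw [hP] at hy; exact Finset.mem_filter.1 hy
  have hPm' : ∀ y ∈ P', y ∈ I ∧ v yᶜ < 0 := fun y hy => by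
    rw [hP'] at hy; exact Finset.mem_filter.1 hy
  obtain ⟨e, he, heQ⟩ := fam (wE (1 : ℝ)) (fun y => wv_one 1 y)
    (fun y z h => wv_zero 1 (by rwa [compl_compl])) P v
    (fun t => Hs I ⊓ Sp (fun Y => t ≤ v Y))
    (fun s t hst a ha => ⟨ha.1, fun Y hY => ha.2 Y fun h => hY (hst.trans h)⟩)
    (fun y hy => ⟨wE_mem_Hs hI 1 (hPm y hy).1, fun Y hY => syn_wE_one fun h => hY (hv h)⟩)
  obtain ⟨e', he', heQ'⟩ := fam (wE (-1 : ℝ)) (fun y => wv_one (-1) y)
    (fun y z h => wv_zero (-1) (by rwa [compl_compl])) P' (fun y => - v yᶜ)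
    (fun t => Hs I ⊓ Sp (fun Y => v Y ≤ - t))
    (fun s t hst a ha => ⟨ha.1, fun Y hY => ha.2 Y fun h => hY (by linarith)⟩)
    (fun y hy => ⟨wE_mem_Hs hI (-1) (hPm' y hy).1, fun Y hY => syn_wE_neg fun h => hY (by
      rw [neg_neg]; exact hv h)⟩)
  have hcross : ∀ (y : P) (z : P'), inner ℝ (e y) (e' z) = (0 : ℝ) := by
    intro y z
    rw [inner_eq_av]
    have : ∀ Y, syn (e y) Y * syn (e' z) Y = 0 := by
      intro Y
      by_cases h1 : v y ≤ v Y
      · have h2 : ¬ v Y ≤ - (- v (z : Finset ι)ᶜ) := by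
          rw [neg_neg]
          have h3 := (hPm y y.2).2
          have h4 := (hPm' z z.2).2
          linarith
        rw [(heQ' z).2 Y h2, mul_zero]
      · rw [(heQ y).2 Y h1, zero_mul]
    rw [av_congr this, av_const]
  have hon : Orthonormal ℝ (fun i : P ⊕ P' => ten (Sum.elim e e' i)) := by
    rw [orthonormal_iff_ite]
    intro i j
    rw [inner_ten]
    rcases i with i | i <;> rcases j with j | j
    · simp only [Sum.elim_inl]
      rw [orthonormal_iff_ite.1 he i j]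
      by_cases h : i = j <;> simp [h]
    · simp only [Sum.elim_inl, Sum.elim_inr]
      rw [hcross i j]; simp
    · simp only [Sum.elim_inl, Sum.elim_inr]
      rw [real_inner_comm, hcross j i]; simp
    · simp only [Sum.elim_inr]
      rw [orthonormal_iff_ite.1 he' i j]
      by_cases h : i = j <;> simp [h]
  have hB := hon.sum_inner_products_le (Mt v I) (s := Finset.univ)
  rw [norm_Mt, Fintype.sum_sum_type] at hB
  refine le_trans ?_ hB
  rw [Finset.sum_add_distrib]
  refine add_le_add ?_ ?_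
  · have h1 : ∑ y ∈ I, (max (v y) 0) ^ 2 = ∑ y : P, (v y) ^ 2 := by
      rw [Finset.sum_coe_sort P (fun y => (v y) ^ 2), hP, Finset.sum_filter]
      refine Finset.sum_congr rfl fun y _ => ?_
      split_ifs with h
      · rw [max_eq_left h.le]
      · rw [max_eq_right (not_lt.1 h)]; norm_num
    rw [h1]
    refine Finset.sum_le_sum fun y _ => ?_
    simp only [Sum.elim_inl]
    rw [inner_ten_Mt v (heQ y).1, Real.norm_eq_abs, sq_abs]
    have hn : inner ℝ (e y) (e y) = (1 : ℝ) := by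
      rw [orthonormal_iff_ite.1 he y y, if_pos rfl]
    exact pow_le_pow_left₀ (hPm y y.2).2.le (quad_ge (heQ y).2 hn) 2
  · have h1 : ∑ y ∈ I, (max (- v yᶜ) 0) ^ 2 = ∑ y : P', (- v (y : Finset ι)ᶜ) ^ 2 := by
      rw [Finset.sum_coe_sort P' (fun y => (- v yᶜ) ^ 2), hP', Finset.sum_filter]
      refine Finset.sum_congr rfl fun y _ => ?_
      split_ifs with h
      · rw [max_eq_left (by linarith)]
      · rw [max_eq_right (by linarith)]; norm_num
    rw [h1]
    refine Finset.sum_le_sum fun y _ => ?_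
    simp only [Sum.elim_inr]
    rw [inner_ten_Mt v (heQ' y).1, Real.norm_eq_abs, sq_abs]
    have hn : inner ℝ (e' y) (e' y) = (1 : ℝ) := by
      rw [orthonormal_iff_ite.1 he' y y, if_pos rfl]
    have h2 := quad_le (heQ' y).2 hn
    have h3 := (hPm' y y.2).2
    nlinarith

end Pool.Agent.H95.KQ
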