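import Pool.Agent.H95.KQ.Core

/-!
# Every nondecreasing antipodal function: `til f` flows to `sqp f`
-/

set_option autoImplicit false
set_option linter.unusedSectionVars false

open Finset

namespace Pool.Agent.H95.KQ

open Pool.Agent.H60.Flow

section

variable {ι : Type*} [Fintype ι] [DecidableEq ι]

/-- Sorting the pairs by their symmetric difference. -/
theorem pairs_eq (F : Finset ι → ℝ) (I : Finset (Finset ι)) :
    ∑ B ∈ I, ∑ B' ∈ I, F (symmDiff B B') =
      ∑ T, F T * ((I.filter fun B => symmDiff B T ∈ I).card : ℝ) := by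
  have h1 : ∀ B ∈ I, ∑ B' ∈ I, F (symmDiff B B') = ∑ T, if symmDiff B T ∈ I then F T else 0 := by
    intro B _
    have h2 : ∑ B' ∈ I, F (symmDiff B B') = ∑ B', if B' ∈ I then F (symmDiff B B') else 0 := by
      rw [← Finset.sum_filter]; simp
    rw [h2]
    let c : Finset ι ≃ Finset ι := ⟨fun A => symmDiff B A, fun A => symmDiff B A,
      fun A => symmDiff_symmDiff_cancel_left B A, fun A => symmDiff_symmDiff_cancel_left B A⟩
    rw [← Equiv.sum_comp c]
    refine Finset.sum_congr rfl fun T _ => ?_
    have h3 : symmDiff B (c T) = T := symmDiff_symmDiff_cancel_left B T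
    rw [h3]
    rfl
  rw [Finset.sum_congr rfl h1, Finset.sum_comm]
  refine Finset.sum_congr rfl fun T _ => ?_
  rw [← Finset.sum_filter, Finset.sum_const, nsmul_eq_mul, mul_comm]

theorem card_pairs_le (I : Finset (Finset ι)) {T : Finset ι} {i : ι} (hi : i ∈ T) :
    (I.filter fun B => symmDiff B T ∈ I).card ≤ 2 * (I.filter fun B => i ∈ B).card := by
  have h1 := Finset.card_filter_add_card_filter_not (s := I.filter fun B => symmDiff B T ∈ I)
    (fun B => i ∈ B)
  have h2 : ((I.filter fun B => symmDiff B T ∈ I).filter fun B => i ∈ B).card ≤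
      (I.filter fun B => i ∈ B).card := by
    refine Finset.card_le_card fun B hB => ?_
    simp only [Finset.mem_filter] at hB ⊢
    exact ⟨hB.1.1, hB.2⟩
  have h3 : ((I.filter fun B => symmDiff B T ∈ I).filter fun B => i ∉ B).card ≤
      (I.filter fun B => i ∈ B).card := by
    refine Finset.card_le_card_of_injOn (fun B => symmDiff B T) ?_ ?_
    · intro B hB
      simp only [Finset.coe_filter, Finset.mem_filter, Set.mem_ofPred_eq] at hB ⊢
      exact ⟨hB.1.2, Finset.mem_symmDiff.2 (Or.inr ⟨hi, hB.2⟩)⟩
    · intro B _ B' _ h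
      exact symmDiff_left_injective T h
  omega

/-- From down-sets to nondecreasing weights. -/
theorem layer_weights {D : Finset ι → ℝ} (h0 : ∑ A, D A = 0)
    (hD : ∀ I : Finset (Finset ι), (∀ A B, A ⊆ B → B ∈ I → A ∈ I) → ∑ A ∈ I, D A ≤ 0)
    (K : Finset ι → ℝ) (hK : Monotone K) : 0 ≤ ∑ A, K A * D A := by
  have hl : ∀ K : Finset ι → ℝ, (∀ A, 0 ≤ K A) → (Monotone K → 0 ≤ ∑ A, K A * D A) := by
    refine layer_induction ?_ ?_
    · intro _; simp
    · intro f hf t ht hmin _ ih hfm
      have hmono0 : ∀ A B, A ≤ B → f A ≠ 0 → f B ≠ 0 := by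
        intro A B hAB hA hB
        have h1 := hfm hAB
        rw [hB] at h1
        exact hA (le_antisymm h1 (hf A))
      have hfm' : Monotone (fun A => if f A = 0 then (0 : ℝ) else f A - t) := by
        intro A B hAB
        by_cases hA : f A = 0
        · simp only [hA, if_true]
          split_ifs with hB
          · exact le_rfl
          · have := hmin B hB; linarith
        · simp only [hA, hmono0 A B hAB hA, if_false]
          have := hfm hAB; linarith
      have h1 := ih hfm'
      have h2 := hD (univ.filter fun A => f A = 0) (by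
        intro A B hAB hB
        rw [Finset.mem_filter] at hB ⊢
        refine ⟨Finset.mem_univ _, ?_⟩
        by_contra hA
        exact hmono0 A B hAB hA hB.2)
      have h3 : ∑ A, f A * D A = ∑ A, (if f A = 0 then (0 : ℝ) else f A - t) * D A +
          t * (∑ A, D A - ∑ A ∈ univ.filter (fun A => f A = 0), D A) := by
        rw [Finset.sum_filter, ← Finset.sum_sub_distrib, Finset.mul_sum, ← Finset.sum_add_distrib]
        refine Finset.sum_congr rfl fun A _ => ?_
        by_cases hA : f A = 0
        · simp [hA]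
        · simp only [hA, if_false]; ring
      rw [h3, h0]
      have h4 : 0 ≤ t * (0 - ∑ A ∈ univ.filter (fun A => f A = 0), D A) :=
        mul_nonneg ht.le (by linarith)
      linarith
  have h1 := hl (fun A => K A - K ∅) (fun A => by have := hK (Finset.empty_subset A); linarith)
    (fun A B hAB => by have := hK hAB; show K A - K ∅ ≤ K B - K ∅; linarith)
  have h2 : ∑ A, (K A - K ∅) * D A = ∑ A, K A * D A - K ∅ * ∑ A, D A := by
    rw [Finset.mul_sum, ← Finset.sum_sub_distrib]
    exact Finset.sum_congr rfl fun A _ => by ring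
  rw [h2, h0] at h1
  linarith

end

section

variable {n : ℕ}

theorem sum_til (f : Finset (Fin n) → ℝ) (I : Finset (Finset (Fin n))) :
    ∑ A ∈ I, til f A = ∑ i, lam f i * ((I.filter fun B => i ∈ B).card : ℝ) := by
  have h1 : ∀ A ∈ I, til f A = ∑ i, if i ∈ A then lam f i else 0 := by
    intro A _
    unfold til
    rw [← Finset.sum_filter]; simp
  rw [Finset.sum_congr rfl h1, Finset.sum_comm]
  refine Finset.sum_congr rfl fun i _ => ?_
  rw [← Finset.sum_filter, Finset.sum_const, nsmul_eq_mul, mul_comm]

/-- **The inequality over every down-set.** -/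
theorem downset (f : Finset (Fin n) → ℝ) (hf : Monotone f) (ha : Antip f)
    (I : Finset (Finset (Fin n))) (hI : ∀ A B, A ⊆ B → B ∈ I → A ∈ I) :
    ∑ A ∈ I, sqp f A ≤ ∑ A ∈ I, til f A := by
  have h1 := core f hf I hI
  rw [pairs_eq (fun T => hat f T ^ 2)] at h1
  have h2 : ∑ y ∈ I, ((max (f y) 0) ^ 2 + (max (- f yᶜ) 0) ^ 2) = 2 * ∑ A ∈ I, sqp f A := by
    rw [Finset.mul_sum]
    refine Finset.sum_congr rfl fun y _ => ?_
    rw [ha y, neg_neg]
    unfold sqp; ring
  have h3 : ∑ T, hat f T ^ 2 * ((I.filter fun B => symmDiff B T ∈ I).card : ℝ) ≤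
      2 * ∑ i, lam f i * ((I.filter fun B => i ∈ B).card : ℝ) := by
    rw [sum_lam_mul, Finset.mul_sum]
    refine Finset.sum_le_sum fun T _ => ?_
    by_cases hT : T.Nonempty
    · rw [dif_pos hT]
      have h4 : ((I.filter fun B => symmDiff B T ∈ I).card : ℝ) ≤
          2 * ((I.filter fun B => T.max' hT ∈ B).card : ℝ) := by
        exact_mod_cast card_pairs_le I (T.max'_mem hT)
      have h5 := mul_le_mul_of_nonneg_left h4 (sq_nonneg (hat f T))
      linarith
    · have h0 : T = ∅ := Finset.not_nonempty_iff_eq_empty.1 hT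
      subst h0
      rw [hat_odd ha (by simp)]
      simp
  rw [sum_til]
  linarith

/-- **`til f` flows to `sqp f`.** -/
theorem flow (f : Finset (Fin n) → ℝ) (hf : Monotone f) (ha : Antip f) : Flows (til f) (sqp f) := by
  have hav : av f = 0 := by
    have := hat_odd ha (T := ∅) (by simp)
    rwa [hat_empty] at this
  have htot : ∑ A, (sqp f A - til f A) = 0 := by
    have h1 := av_sqp ha
    have h2 := av_mul_til (fun _ => (1 : ℝ)) f
    have h3 : ∀ i : Fin n, kap (fun _ : Finset (Fin n) => (1 : ℝ)) i = 0 := by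
      intro i
      unfold kap
      exact hat_const 1 (Finset.singleton_nonempty i)
    simp only [h3, mul_zero, Finset.sum_const_zero, add_zero, av_const, one_mul, mul_one, hav] at h2
    rw [sum_eq_av, av_sub, h1]
    have h4 : av (til f) = (av (fun A => f A ^ 2) - 0 ^ 2) / 2 := h2
    rw [h4]; ring
  refine flows_of_le (fun A => til_nonneg f A) (fun A => sq_nonneg _) fun K hK => ?_
  have h1 := layer_weights htot (fun I hI => by
    rw [Finset.sum_sub_distrib]
    have := downset f hf ha I hI
    linarith) K hK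
  have h2 : ∑ A, K A * (sqp f A - til f A) = ∑ A, K A * sqp f A - ∑ A, K A * til f A := by
    rw [← Finset.sum_sub_distrib]
    exact Finset.sum_congr rfl fun A _ => by ring
  linarith

end

end Pool.Agent.H95.KQ
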